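import Mathlib

/-!
# A finite certificate modulo 420

For `n₀` coprime to `210`, integer combinations of the linear forms
`z ↦ ∑_{i ≤ e, e - i prime} z i`, `e ≤ 205`, `4 ∣ n₀ + e`, which isolate `z 0` among the `z i` with
`n₀ + i` coprime to `210`.
-/

set_option autoImplicit false

namespace Pool.Agent.H159.GB

open Finset

/-- bit mask of the primes up to `205` -/
def primeMask : ℕ := 1020032875410759681235134578348735197776366020317731447515308

/-- the primes up to `205`, as a Boolean test -/
def isP (k : ℕ) : Bool := Nat.testBit primeMask k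

theorem isP_iff (k : ℕ) (hk : k ≤ 205) : isP k = true ↔ Nat.Prime k := by
  unfold isP primeMask
  interval_cases k <;> norm_num [Nat.testBit, Nat.shiftRight_eq_div_pow]

/-- the certificates -/
def certTab (n : ℕ) : List (ℕ × ℤ) :=
  if n = 11 then [(5, 1), (9, -1), (17, 1), (21, 1), (25, -1), (41, -1), (45, -1), (49, 1)] else
  if n = 59 then [(5, 1), (9, -1)] else
  if n = 71 then [(5, 1), (9, -1)] else
  if n = 107 then [(9, -1), (13, 1)] else
  if n = 167 then [(9, -1), (13, 1)] else
  if n = 179 then [(5, 1), (9, -1)] else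
  if n = 191 then [(5, 3), (13, 4), (21, 5), (25, -11), (33, 1), (37, 2), (41, -5), (45, -7), (49, 7), (53, -3), (57, 5), (65, 3), (69, 2), (73, -2), (77, -2), (81, -2), (89, 1), (93, -1), (105, -1), (109, 1)] else
  if n = 227 then [(9, -1), (13, 1)] else
  if n = 239 then [(5, 1), (9, -1)] else
  if n = 251 then [(9, -1), (13, 1)] else
  if n = 311 then [(5, -107), (9, -157), (13, 191), (17, 195), (25, -143), (29, 8), (33, 150), (37, -157), (41, -95), (45, -62), (49, 105), (53, -42), (57, -2), (61, 32), (65, 10), (69, -6), (73, -16), (77, 38), (81, 28), (85, -17), (89, -11), (97, 7), (101, -4), (105, 4), (113, -5), (117, 7), (125, 4), (129, -4), (133, -2), (137, 1), (141, 2), (145, -2), (149, 3), (157, -1), (161, -6), (165, -4), (169, 5), (173, 1), (177, -3), (185, -1), (189, 1), (197, 1), (201, 1), (205, -1)] else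
  if n = 347 then [(9, -1), (13, 1)] else
  if n = 359 then [(5, 1), (9, -1)] else
  if n = 407 then [(5, 1), (9, -1)] else
  if n = 419 then [(5, 1), (9, -1)] else
  if n % 4 = 1 then [(3, 1)] else [(5, 1)]

/-- the coefficient of `z i` in the combination -/
def cf (l : List (ℕ × ℤ)) (i : ℕ) : ℤ :=
  (l.map (fun ec => if i ≤ ec.1 ∧ isP (ec.1 - i) = true then ec.2 else 0)).sum

/-- correctness of the certificate for the class `n` modulo `420` -/
def certOK (n : ℕ) : Bool :=
  (certTab n).all (fun ec => decide (ec.1 ≤ 205) && decide (4 ∣ n + ec.1)) &&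
  (List.range 206).all (fun i =>
    !(decide (Nat.gcd (n + i) 210 = 1)) || decide (cf (certTab n) i = if i = 0 then 1 else 0))

theorem certOK_all : ((List.range 420).all fun n => !(decide (Nat.gcd n 210 = 1)) || certOK n) = true := by
  decide +kernel

theorem certOK_of (n : ℕ) (hn : n < 420) (h : Nat.gcd n 210 = 1) : certOK n = true := by
  have := (List.all_eq_true.1 certOK_all) n (List.mem_range.2 hn)
  simpa [h] using this

section core

variable {R : Type*} [CommRing R]

theorem swap_sum (l : List (ℕ × ℤ)) (z : ℕ → R) :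
    (l.map (fun ec => (ec.2 : R) * ∑ i ∈ range 206,
      (if i ≤ ec.1 ∧ isP (ec.1 - i) = true then z i else 0))).sum =
    ∑ i ∈ range 206, ((cf l i : ℤ) : R) * z i := by
  induction l with
  | nil => simp [cf]
  | cons a l ih =>
    rw [List.map_cons, List.sum_cons, ih, Finset.mul_sum, ← Finset.sum_add_distrib]
    apply Finset.sum_congr rfl
    intro i _
    have : cf (a :: l) i = (if i ≤ a.1 ∧ isP (a.1 - i) = true then a.2 else 0) + cf l i := by
      simp [cf]
    rw [this]
    push_cast
    split_ifs <;> ring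

theorem core_lt (n0 : ℕ) (hlt : n0 < 420) (h0 : Nat.gcd n0 210 = 1) (z : ℕ → R)
    (hz : ∀ i, Nat.gcd (n0 + i) 210 ≠ 1 → z i = 0)
    (heq : ∀ e ≤ 205, 4 ∣ n0 + e → ∑ i ∈ range (e + 1), (if (e - i).Prime then z i else 0) = 0) :
    z 0 = 0 := by
  have hc := certOK_of n0 hlt h0
  unfold certOK at hc
  rw [Bool.and_eq_true] at hc
  obtain ⟨hc1, hc2⟩ := hc
  rw [List.all_eq_true] at hc1 hc2
  have hsw := swap_sum (certTab n0) z
  -- the left side vanishes
  have hleft : ((certTab n0).map (fun ec => (ec.2 : R) * ∑ i ∈ range 206,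
      (if i ≤ ec.1 ∧ isP (ec.1 - i) = true then z i else 0))).sum = 0 := by
    apply List.sum_eq_zero
    intro x hx
    rw [List.mem_map] at hx
    obtain ⟨ec, hec, rfl⟩ := hx
    have h1 := hc1 ec hec
    simp only [Bool.and_eq_true, decide_eq_true_eq] at h1
    obtain ⟨h1, h2⟩ := h1
    have h3 := heq ec.1 h1 h2
    have h4 : ∑ i ∈ range 206, (if i ≤ ec.1 ∧ isP (ec.1 - i) = true then z i else 0) =
        ∑ i ∈ range (ec.1 + 1), (if (ec.1 - i).Prime then z i else 0) := by
      symm
      refine Finset.sum_subset_zero_on_sdiff (by intro i; simp only [mem_range]; omega) ?_ ?_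
      · intro i hi
        rw [mem_sdiff, mem_range, mem_range] at hi
        rw [if_neg (by omega)]
      · intro i hi
        rw [mem_range] at hi
        have h5 := isP_iff (ec.1 - i) (by omega)
        by_cases h6 : (ec.1 - i).Prime
        · rw [if_pos h6, if_pos ⟨by omega, h5.2 h6⟩]
        · rw [if_neg h6, if_neg]
          rintro ⟨-, h7⟩
          exact h6 (h5.1 h7)
    rw [h4, h3, mul_zero]
  rw [hleft] at hsw
  rw [Finset.sum_eq_single 0] at hsw
  · have h1 := hc2 0 (by simp)
    simp only [add_zero, h0, decide_true, Bool.not_true, Bool.false_or, decide_eq_true_eq,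
      if_true] at h1
    rw [h1] at hsw
    simpa using hsw.symm
  · intro i hi hi0
    rw [mem_range] at hi
    by_cases hco : Nat.gcd (n0 + i) 210 = 1
    · have h1 := hc2 i (List.mem_range.2 hi)
      simp only [hco, decide_true, Bool.not_true, Bool.false_or, decide_eq_true_eq,
        if_neg hi0] at h1
      rw [h1]; simp
    · rw [hz i hco, mul_zero]
  · intro h; exact absurd (mem_range.2 (by norm_num)) h

/-- the core lemma: the linear forms with the certificate determine `z 0` -/
theorem core (n0 : ℕ) (h0 : Nat.gcd n0 210 = 1) (z : ℕ → R)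
    (hz : ∀ i, Nat.gcd (n0 + i) 210 ≠ 1 → z i = 0)
    (heq : ∀ e ≤ 205, 4 ∣ n0 + e → ∑ i ∈ range (e + 1), (if (e - i).Prime then z i else 0) = 0) :
    z 0 = 0 := by
  have hg : ∀ i, Nat.gcd (n0 % 420 + i) 210 = Nat.gcd (n0 + i) 210 := by
    intro i
    rw [Nat.gcd_comm, Nat.gcd_comm (n0 + i)]
    rw [Nat.gcd_rec 210 (n0 % 420 + i), Nat.gcd_rec 210 (n0 + i)]
    congr 1
    omega
  refine core_lt (n0 % 420) (Nat.mod_lt _ (by norm_num)) ?_ z ?_ ?_
  · have := hg 0
    simp only [add_zero] at this
    rw [this, h0]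
  · intro i hi
    rw [hg] at hi
    exact hz i hi
  · intro e he h4
    refine heq e he ?_
    omega

end core

end Pool.Agent.H159.GB
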