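import Pool.Agent.H159.GB.Cert

/-!
# Representation counts, rigidity, and a uniqueness lemma for power series
-/

set_option autoImplicit false

namespace Pool.Agent.H159.GB

open Finset

/-- the number of pairs `(x, y)` of elements of `A` with `x + y = 2n`, `x > n > y` -/
noncomputable def gcount (A : Set ℕ) (n : ℕ) : ℕ :=
  {x : ℕ × ℕ | x.1 ∈ A ∧ x.2 ∈ A ∧ x.1 + x.2 = 2 * n ∧ n < x.1 ∧ x.2 < n}.ncard

/-- `A` coincides with the primes up to `205` and is coprime to `210` beyond -/
def Tame (A : Set ℕ) : Prop :=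
  (∀ n ≤ 205, n ∈ A ↔ n.Prime) ∧ ∀ n ∈ A, 205 < n → Nat.gcd n 210 = 1

theorem Tame.odd {A : Set ℕ} (hA : Tame A) {n : ℕ} (hn : n ∈ A) (h2 : n ≠ 2) : n % 2 = 1 := by
  by_cases h : n ≤ 205
  · have hp := (hA.1 n h).1 hn
    rcases hp.eq_two_or_odd with h3 | h3
    · exact absurd h3 h2
    · exact h3
  · have h1 := hA.2 n hn (by omega)
    by_contra hcon
    have h3 : 2 ∣ Nat.gcd n 210 := Nat.dvd_gcd (by omega) (by norm_num)
    rw [h1] at h3
    omega

open Classical in
/-- the indicator function of `A` with values in `R` -/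
noncomputable def ind (R : Type*) [CommRing R] (A : Set ℕ) (n : ℕ) : R := if n ∈ A then 1 else 0

section

variable {R : Type*} [CommRing R]

theorem ind_of_mem {A : Set ℕ} {n : ℕ} (h : n ∈ A) : ind R A n = 1 := by
  unfold ind; rw [if_pos h]

theorem ind_of_not_mem {A : Set ℕ} {n : ℕ} (h : n ∉ A) : ind R A n = 0 := by
  unfold ind; rw [if_neg h]

theorem gcount_eq {A : Set ℕ} (hA : Tame A) (k : ℕ) :
    (gcount A (2 * k) : R) = ∑ i ∈ range (4 * k + 1), if i % 4 = 1 then ind R A i * ind R A (4 * k - i) else 0 := by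
  classical
  have h1 : {x : ℕ × ℕ | x.1 ∈ A ∧ x.2 ∈ A ∧ x.1 + x.2 = 2 * (2 * k) ∧ 2 * k < x.1 ∧ x.2 < 2 * k}.ncard =
      ((range (4 * k + 1)).filter fun i => i % 4 = 1 ∧ i ∈ A ∧ 4 * k - i ∈ A).card := by
    rw [← Set.ncard_coe_finset]
    have hodd : ∀ x ∈ {x : ℕ × ℕ | x.1 ∈ A ∧ x.2 ∈ A ∧ x.1 + x.2 = 2 * (2 * k) ∧ 2 * k < x.1 ∧ x.2 < 2 * k},
        x.1 % 2 = 1 ∧ x.2 % 2 = 1 := by
      rintro ⟨x, y⟩ ⟨hx, hy, hs, hx1, hy1⟩
      simp only at hx hy hs hx1 hy1 ⊢
      have h2 := hA.odd hx
      have h3 := hA.odd hy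
      by_cases hx2 : x = 2
      · by_cases hy2 : y = 2
        · omega
        · have := h3 hy2
          omega
      · have := h2 hx2
        omega
    refine Set.ncard_congr (fun x _ => if x.1 % 4 = 1 then x.1 else x.2) ?_ ?_ ?_
    · rintro ⟨x, y⟩ hxy
      have ho := hodd _ hxy
      obtain ⟨hx, hy, hs, hx1, hy1⟩ := hxy
      simp only at hx hy hs hx1 hy1 ho ⊢
      simp only [coe_filter, mem_range, Set.mem_ofPred_eq]
      split_ifs with h4
      · refine ⟨by omega, h4, hx, ?_⟩
        have : 4 * k - x = y := by omega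
        rw [this]; exact hy
      · refine ⟨by omega, by omega, hy, ?_⟩
        have : 4 * k - y = x := by omega
        rw [this]; exact hx
    · rintro ⟨x, y⟩ ⟨x', y'⟩ hxy hxy' h
      have ho := hodd _ hxy
      have ho' := hodd _ hxy'
      obtain ⟨hx, hy, hs, hx1, hy1⟩ := hxy
      obtain ⟨hx', hy', hs', hx1', hy1'⟩ := hxy'
      simp only at *
      rw [Prod.mk.injEq]
      split_ifs at h <;> omega
    · intro i hi
      simp only [coe_filter, mem_range, Set.mem_ofPred_eq] at hi
      obtain ⟨hi1, hi2, hi3, hi4⟩ := hi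
      by_cases h5 : 2 * k < i
      · refine ⟨(i, 4 * k - i), ⟨hi3, hi4, ?_, ?_, ?_⟩, ?_⟩
        · simp only; omega
        · simp only; omega
        · simp only; omega
        · simp only [hi2, if_true]
      · refine ⟨(4 * k - i, i), ⟨hi4, hi3, ?_, ?_, ?_⟩, ?_⟩
        · simp only; omega
        · simp only; omega
        · simp only; omega
        · simp only
          rw [if_neg (by omega)]
  unfold gcount
  rw [h1, Finset.card_filter]
  push_cast
  apply Finset.sum_congr rfl
  intro i _
  unfold ind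
  by_cases h2 : i % 4 = 1
  · by_cases h3 : i ∈ A
    · by_cases h4 : 4 * k - i ∈ A
      · simp [h2, h3, h4]
      · simp [h2, h3, h4]
    · simp [h2, h3]
  · simp [h2]

theorem ind_small {A : Set ℕ} (hA : Tame A) {n : ℕ} (hn : n ≤ 205) :
    ind R A n = if n.Prime then 1 else 0 := by
  by_cases h : n.Prime
  · rw [if_pos h, ind_of_mem ((hA.1 n hn).2 h)]
  · rw [if_neg h, ind_of_not_mem (fun h2 => h ((hA.1 n hn).1 h2))]

theorem ind_even {A : Set ℕ} (hA : Tame A) {n : ℕ} (hn : 205 < n) (hg : Nat.gcd n 210 ≠ 1) :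
    ind R A n = 0 :=
  ind_of_not_mem fun h => hg (hA.2 n h hn)

end

/-- rigidity: the counts modulo `m` up to `K` determine the set up to `4K - 205` -/
theorem rigidity {A B : Set ℕ} (hA : Tame A) (hB : Tame B) {m : ℕ} (hm : 2 ≤ m) {K : ℕ}
    (h : ∀ k ≤ K, gcount A (2 * k) ≡ gcount B (2 * k) [MOD m]) {n : ℕ} (hn : n + 205 ≤ 4 * K) :
    n ∈ A ↔ n ∈ B := by
  classical
  by_contra hcon
  have hex : ∃ n, n + 205 ≤ 4 * K ∧ ¬ (n ∈ A ↔ n ∈ B) := ⟨n, hn, hcon⟩
  obtain ⟨n0, ⟨hn0, hne⟩, hmin⟩ : ∃ n0, (n0 + 205 ≤ 4 * K ∧ ¬ (n0 ∈ A ↔ n0 ∈ B)) ∧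
      ∀ j < n0, (j ∈ A ↔ j ∈ B) := by
    refine ⟨Nat.find hex, Nat.find_spec hex, fun j hj => ?_⟩
    have h1 := Nat.find_min hex hj
    have h2 := (Nat.find_spec hex).1
    by_contra h3
    exact h1 ⟨by omega, h3⟩
  have hbig : 205 < n0 := by
    by_contra hle
    apply hne
    rw [hA.1 n0 (by omega), hB.1 n0 (by omega)]
  have hgcd : Nat.gcd n0 210 = 1 := by
    by_contra hg
    apply hne
    constructor
    · intro h1; exact absurd (hA.2 n0 h1 hbig) hg
    · intro h1; exact absurd (hB.2 n0 h1 hbig) hg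
  have : Fact (1 < m) := ⟨by omega⟩
  set a : ℕ → ZMod m := ind (ZMod m) A with ha
  set b : ℕ → ZMod m := ind (ZMod m) B with hb
  have hδ : ∀ j < n0, b j - a j = 0 := by
    intro j hj
    have := hmin j hj
    simp only [ha, hb]
    by_cases h1 : j ∈ A
    · rw [ind_of_mem h1, ind_of_mem (this.1 h1), sub_self]
    · rw [ind_of_not_mem h1, ind_of_not_mem (fun h2 => h1 (this.2 h2)), sub_self]
  have hcore : b (n0 + 0) - a (n0 + 0) = 0 := by
    refine core n0 hgcd (fun i => b (n0 + i) - a (n0 + i)) ?_ ?_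
    · intro i hi
      simp only [ha, hb]
      rw [ind_even hA (by omega) hi, ind_even hB (by omega) hi, sub_zero]
    · intro e he h4
      obtain ⟨k, hk⟩ := h4
      have hkK : k ≤ K := by omega
      have h5 := (ZMod.natCast_eq_natCast_iff _ _ _).2 (h k hkK)
      rw [gcount_eq hA, gcount_eq hB] at h5
      -- the difference
      have h6 : ∑ i ∈ range (4 * k + 1), (if i % 4 = 1 then (b i * b (4 * k - i) - a i * a (4 * k - i)) else 0) = 0 := by
        rw [← sub_eq_zero, ← Finset.sum_sub_distrib] at h5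
        have h5' : ∑ i ∈ range (4 * k + 1), (if i % 4 = 1 then (b i * b (4 * k - i) - a i * a (4 * k - i)) else 0) =
            - ∑ x ∈ range (4 * k + 1), ((if x % 4 = 1 then ind (ZMod m) A x * ind (ZMod m) A (4 * k - x) else 0) -
              if x % 4 = 1 then ind (ZMod m) B x * ind (ZMod m) B (4 * k - x) else 0) := by
          rw [← Finset.sum_neg_distrib]
          apply Finset.sum_congr rfl
          intro i _
          split_ifs <;> simp [ha, hb]
        rw [h5', h5, neg_zero]
      have h7 : ∀ i ∈ range (4 * k + 1), (if i % 4 = 1 then (b i * b (4 * k - i) - a i * a (4 * k - i)) else 0) =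
          (if i % 4 = 1 then a i * (b (4 * k - i) - a (4 * k - i)) else 0) +
          (if i % 4 = 1 then (b i - a i) * a (4 * k - i) else 0) := by
        intro i hi
        rw [mem_range] at hi
        split_ifs
        · have h8 : (b i - a i) * (b (4 * k - i) - a (4 * k - i)) = 0 := by
            by_cases h9 : i < n0
            · rw [hδ i h9, zero_mul]
            · rw [hδ (4 * k - i) (by omega), mul_zero]
          linear_combination h8
        · simp
      rw [Finset.sum_congr rfl h7, Finset.sum_add_distrib] at h6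
      have h8 : ∑ i ∈ range (4 * k + 1), (if i % 4 = 1 then a i * (b (4 * k - i) - a (4 * k - i)) else 0) =
          ∑ i ∈ range (4 * k + 1), (if i % 4 = 3 then (b i - a i) * a (4 * k - i) else 0) := by
        rw [← Finset.sum_range_reflect]
        apply Finset.sum_congr rfl
        intro i hi
        rw [mem_range] at hi
        have h9 : 4 * k + 1 - 1 - i = 4 * k - i := by omega
        have h10 : 4 * k - (4 * k - i) = i := by omega
        rw [h9, h10]
        by_cases h11 : i % 4 = 3
        · rw [if_pos h11, if_pos (by omega), mul_comm]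
        · rw [if_neg h11, if_neg (by omega)]
      rw [h8, ← Finset.sum_add_distrib] at h6
      have h9 : ∀ i ∈ range (4 * k + 1), ((if i % 4 = 3 then (b i - a i) * a (4 * k - i) else 0) +
          (if i % 4 = 1 then (b i - a i) * a (4 * k - i) else 0)) =
          if n0 ≤ i then (b i - a i) * a (4 * k - i) else 0 := by
        intro i hi
        rw [mem_range] at hi
        by_cases h10 : n0 ≤ i
        · rw [if_pos h10]
          by_cases h11 : i % 2 = 1
          · have : i % 4 = 1 ∨ i % 4 = 3 := by omega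
            rcases this with h12 | h12
            · rw [if_neg (by omega), if_pos h12, zero_add]
            · rw [if_pos h12, if_neg (by omega), add_zero]
          · rw [if_neg (by omega), if_neg (by omega)]
            have h12 : Nat.gcd i 210 ≠ 1 := by
              intro h13
              have h14 : 2 ∣ Nat.gcd i 210 := Nat.dvd_gcd (by omega) (by norm_num)
              rw [h13] at h14; omega
            simp only [ha, hb]
            rw [ind_even hA (by omega) h12, ind_even hB (by omega) h12]; simp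
        · rw [if_neg h10, hδ i (by omega)]; simp
      rw [Finset.sum_congr rfl h9] at h6
      have h10 : 4 * k + 1 = n0 + (e + 1) := by omega
      rw [h10, Finset.sum_range_add] at h6
      have h10' : ∑ x ∈ range n0, (if n0 ≤ x then (b x - a x) * a (4 * k - x) else 0) = 0 := by
        apply Finset.sum_eq_zero
        intro i hi
        rw [mem_range] at hi
        rw [if_neg (by omega)]
      rw [h10', zero_add] at h6
      refine Eq.trans ?_ h6
      apply Finset.sum_congr rfl
      intro i hi
      rw [mem_range] at hi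
      rw [if_pos (show n0 ≤ n0 + i by omega)]
      have h11 : 4 * k - (n0 + i) = e - i := by omega
      rw [h11]
      have h12 : a (e - i) = if (e - i).Prime then 1 else 0 := ind_small hA (by omega)
      rw [h12]
      split_ifs <;> simp
  rw [add_zero] at hcore
  apply hne
  simp only [ha, hb] at hcore
  by_cases h1 : n0 ∈ A
  · by_cases h2 : n0 ∈ B
    · exact ⟨fun _ => h2, fun _ => h1⟩
    · rw [ind_of_mem h1, ind_of_not_mem h2] at hcore
      simp at hcore
  · by_cases h2 : n0 ∈ B
    · rw [ind_of_mem h2, ind_of_not_mem h1] at hcore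
      simp at hcore
    · exact ⟨fun h => absurd h h1, fun h => absurd h h2⟩

end Pool.Agent.H159.GB
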