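import Mathlib

/-!
# Algebraicity from the vanishing of derivations
-/

set_option autoImplicit false

namespace Pool.Agent.H159.GB

open IntermediateField

theorem algebraic_of_derivations {F K ι : Type} [Field F] [Field K] [Algebra F K] [Finite ι]
    (T : ι → K)
    (hD : ∀ D : Derivation F (adjoin F (Set.range T)) (adjoin F (Set.range T)),
      ∀ i, D ⟨T i, subset_adjoin F _ ⟨i, rfl⟩⟩ = 0) (i : ι) : IsAlgebraic F (T i) := by
  set L := adjoin F (Set.range T) with hL
  -- every derivation vanishes
  have hzero : ∀ D : Derivation F L L, D = 0 := by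
    intro D
    -- the elements of `L` killed by `D`
    have key : ∀ x (hx : x ∈ adjoin F (Set.range T)), D ⟨x, hx⟩ = 0 := by
      intro x hx
      induction hx using IntermediateField.adjoin_induction with
      | mem x hx =>
        obtain ⟨i, rfl⟩ := hx
        exact hD D i
      | algebraMap x =>
        have : (⟨algebraMap F K x, IntermediateField.algebraMap_mem L x⟩ : L) = algebraMap F L x := rfl
        rw [this, D.map_algebraMap]
      | add x y hx hy h1 h2 =>
        have : (⟨x + y, add_mem hx hy⟩ : L) = ⟨x, hx⟩ + ⟨y, hy⟩ := rfl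
        rw [this, map_add, h1, h2, add_zero]
      | inv x hx h1 =>
        have : (⟨x⁻¹, inv_mem hx⟩ : L) = (⟨x, hx⟩ : L)⁻¹ := rfl
        rw [this, Derivation.leibniz_inv, h1, smul_zero]
      | mul x y hx hy h1 h2 =>
        have : (⟨x * y, mul_mem hx hy⟩ : L) = ⟨x, hx⟩ * ⟨y, hy⟩ := rfl
        rw [this, D.leibniz, h1, h2, smul_zero, smul_zero, add_zero]
    ext x
    rw [key x.1 x.2]
    simp
  have hsub : Subsingleton (Ω[L⁄F]) := by
    by_contra hcon
    rw [not_subsingleton_iff_nontrivial] at hcon
    obtain ⟨x, hx⟩ := exists_ne (0 : Ω[L⁄F])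
    obtain ⟨f, hf⟩ := Module.Projective.exists_dual_ne_zero L hx
    apply hf
    have := hzero (KaehlerDifferential.linearMapEquivDerivation F L f)
    rw [LinearEquiv.map_eq_zero_iff] at this
    rw [this]; simp
  have hunr : Algebra.FormallyUnramified F L := ⟨hsub⟩
  have hfin : Algebra.EssFiniteType F L := by
    rw [IntermediateField.essFiniteType_iff]
    exact IntermediateField.fg_adjoin_of_finite (Set.finite_range T)
  have hsep : Algebra.IsSeparable F L := Algebra.FormallyUnramified.isSeparable F L
  have h1 : IsAlgebraic F (⟨T i, subset_adjoin F _ ⟨i, rfl⟩⟩ : L) :=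
    (Algebra.IsSeparable.isAlgebraic F L).isAlgebraic _
  have h2 := h1.algebraMap (A := K)
  exact h2

end Pool.Agent.H159.GB
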