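import Pool.Agent.H159.GB.Series
import Pool.Agent.H159.GB.Field

/-!
# Algebraicity of the class series
-/

set_option autoImplicit false

namespace Pool.Agent.H159.GB

open Finset PowerSeries IntermediateField

/-- the abstract step -/
theorem abstract_step {F k K : Type} [Field F] [Field k] [Field K] [Algebra F K]
    [Algebra (PowerSeries k) K] [IsFractionRing (PowerSeries k) K] {A : Set ℕ} (hA : Tame A)
    (hQ : ∀ s : ZMod 420, 4 ∣ s.val → ∃ q : F, algebraMap F K q = algebraMap (PowerSeries k) K
      (∑ r : ZMod 420 with r.val % 4 = 1, Tcl k A r * Tcl k A (s - r)))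
    (hsm : ∀ r : ZMod 420, Nat.gcd r.val 210 ≠ 1 → ∃ q : F, algebraMap F K q =
      algebraMap (PowerSeries k) K (Tcl k A r)) (r : ZMod 420) :
    IsAlgebraic F (algebraMap (PowerSeries k) K (Tcl k A r)) := by
  refine algebraic_of_derivations (F := F) (K := K)
    (fun r => algebraMap (PowerSeries k) K (Tcl k A r)) ?_ r
  let L : IntermediateField F K := adjoin F (Set.range fun r => algebraMap (PowerSeries k) K (Tcl k A r))
  intro (D : Derivation F L L)
  let t : ZMod 420 → L := fun r => ⟨algebraMap (PowerSeries k) K (Tcl k A r), subset_adjoin F _ ⟨r, rfl⟩⟩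
  -- the derivatives vanish on the non-unit classes
  have h1 : ∀ r : ZMod 420, Nat.gcd r.val 210 ≠ 1 → D (t r) = 0 := by
    intro r hr
    obtain ⟨q, hq⟩ := hsm r hr
    have : t r = algebraMap F L q := by
      apply Subtype.ext
      change algebraMap (PowerSeries k) K (Tcl k A r) = _
      rw [← hq]; rfl
    rw [this, D.map_algebraMap]
  -- the linear equations
  have h2 : ∀ s : ZMod 420, 4 ∣ s.val → ∑ r : ZMod 420, t (s - r) * D (t r) = 0 := by
    intro s hs
    obtain ⟨q, hq⟩ := hQ s hs
    have h3 : (∑ r : ZMod 420 with r.val % 4 = 1, t r * t (s - r)) = algebraMap F L q := by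
      apply Subtype.ext
      have h4 : ((∑ r : ZMod 420 with r.val % 4 = 1, t r * t (s - r) : L) : K) =
          ∑ r : ZMod 420 with r.val % 4 = 1, algebraMap (PowerSeries k) K (Tcl k A r) *
            algebraMap (PowerSeries k) K (Tcl k A (s - r)) := by
        rw [AddSubmonoidClass.coe_finsetSum]
        rfl
      rw [h4]
      have h5 : ((algebraMap F L q : L) : K) = algebraMap F K q := rfl
      rw [h5, hq, map_sum]
      simp_rw [map_mul]
    have h4 := congrArg D h3
    rw [D.map_algebraMap, map_sum] at h4
    have h5 : ∀ r ∈ (univ : Finset (ZMod 420)).filter (fun r => r.val % 4 = 1), D (t r * t (s - r)) =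
        t (s - r) * D (t r) + t (s - (s - r)) * D (t (s - r)) := by
      intro r _
      rw [D.leibniz, sub_sub_cancel, smul_eq_mul, smul_eq_mul, add_comm]
    rw [Finset.sum_congr rfl h5, Finset.sum_add_distrib] at h4
    have h6 : ∑ r : ZMod 420 with r.val % 4 = 1, t (s - (s - r)) * D (t (s - r)) =
        ∑ r : ZMod 420 with r.val % 4 = 3, t (s - r) * D (t r) := by
      have hval : ∀ r : ZMod 420, ((s - r).val + r.val) % 4 = 0 := by
        intro r
        have : ((s - r) + r).val = ((s - r).val + r.val) % 420 := ZMod.val_add _ _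
        rw [sub_add_cancel] at this
        omega
      refine Finset.sum_bij' (fun r _ => s - r) (fun r _ => s - r) ?_ ?_ ?_ ?_ ?_
      · intro r hr
        rw [mem_filter] at hr ⊢
        have := hval r
        refine ⟨mem_univ _, by omega⟩
      · intro r hr
        rw [mem_filter] at hr ⊢
        have := hval r
        refine ⟨mem_univ _, by omega⟩
      · intro r _; ring
      · intro r _; ring
      · intro r _; rfl
    rw [h6, ← Finset.sum_union] at h4
    · rw [← h4]
      symm
      apply Finset.sum_subset (Finset.subset_univ _)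
      intro r _ hr
      rw [mem_union, mem_filter, mem_filter, not_or] at hr
      have h7 : D (t r) = 0 := by
        apply h1
        intro h8
        have h9 : r.val % 2 = 0 := by
          by_contra h10
          have h11 : ¬ r.val % 4 = 1 := fun h => hr.1 ⟨mem_univ _, h⟩
          have h12 : ¬ r.val % 4 = 3 := fun h => hr.2 ⟨mem_univ _, h⟩
          omega
        have h13 : 2 ∣ Nat.gcd r.val 210 := Nat.dvd_gcd (by omega) (by norm_num)
        rw [h8] at h13
        omega
      rw [h7, mul_zero]
    · rw [Finset.disjoint_left]
      intro r hr hr'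
      rw [mem_filter] at hr hr'
      omega
  -- clear denominators
  obtain ⟨b, hb⟩ := IsLocalization.exist_integer_multiples_of_finite (nonZeroDivisors (PowerSeries k))
    (fun r : ZMod 420 => ((D (t r) : L) : K))
  choose y hy using hb
  have hb0 : algebraMap (PowerSeries k) K (b : PowerSeries k) ≠ 0 := by
    intro h
    have h3 := (IsFractionRing.injective (PowerSeries k) K) (h.trans (map_zero _).symm)
    exact nonZeroDivisors.ne_zero b.2 h3
  have hinj := IsFractionRing.injective (PowerSeries k) K
  have hyz : ∀ r, y r = 0 := by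
    refine unique_series hA y ?_ ?_
    · intro r hr
      apply hinj
      rw [hy r, h1 r hr, map_zero]
      simp
    · intro s hs
      apply hinj
      rw [map_zero, map_sum]
      have h3 : ∀ r ∈ (univ : Finset (ZMod 420)), algebraMap (PowerSeries k) K (Tcl k A (s - r) * y r) =
          algebraMap (PowerSeries k) K (b : PowerSeries k) * ((t (s - r) * D (t r) : L) : K) := by
        intro r _
        rw [map_mul, hy r, Algebra.smul_def]
        have : ((t (s - r) * D (t r) : L) : K) =
            algebraMap (PowerSeries k) K (Tcl k A (s - r)) * ((D (t r) : L) : K) := rfl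
        rw [this]; ring
      rw [Finset.sum_congr rfl h3, ← Finset.mul_sum]
      have h4 := congrArg (fun x : L => (x : K)) (h2 s hs)
      simp only [AddSubmonoidClass.coe_finsetSum] at h4
      rw [h4]
      simp
  intro i
  have h3 := hy i
  rw [hyz i, map_zero, Algebra.smul_def] at h3
  have h4 : ((D (t i) : L) : K) = 0 := by
    rcases mul_eq_zero.1 h3.symm with h5 | h5
    · exact absurd h5 hb0
    · exact h5
  exact Subtype.ext h4

theorem alg_over_closure {F0 K : Type} [Field F0] [Field K] [Algebra F0 K] {x : K}
    (h : IsAlgebraic (algebraicClosure F0 K) x) : IsAlgebraic F0 x := by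
  have : Algebra.IsAlgebraic F0 (algebraicClosure F0 K) := algebraicClosure.isAlgebraic F0 K
  exact h.restrictScalars F0

attribute [local instance] FractionRing.liftAlgebra in
theorem Tcl_algebraic {k : Type} [Field k] {A : Set ℕ} (hA : Tame A)
    (hQ : ∀ s : ZMod 420, 4 ∣ s.val → IsAlgebraic (Polynomial k)
      (∑ r : ZMod 420 with r.val % 4 = 1, Tcl k A r * Tcl k A (s - r)))
    (hsm : ∀ r : ZMod 420, Nat.gcd r.val 210 ≠ 1 → IsAlgebraic (Polynomial k) (Tcl k A r))
    (r : ZMod 420) : IsAlgebraic (Polynomial k) (Tcl k A r) := by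
  let S := PowerSeries k
  let K := FractionRing S
  let R := Polynomial k
  have hinjRS : Function.Injective (algebraMap R S) := Polynomial.coe_injective k
  have hinjSK : Function.Injective (algebraMap S K) := IsFractionRing.injective S K
  have hinj : Function.Injective (algebraMap R K) := by
    rw [IsScalarTower.algebraMap_eq R S K]
    exact hinjSK.comp hinjRS
  have hfs : FaithfulSMul R K := (faithfulSMul_iff_algebraMap_injective R K).2 hinj
  let F0 := FractionRing R
  let F := algebraicClosure F0 K
  have hto : ∀ x : S, IsAlgebraic R x → algebraMap S K x ∈ F := by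
    intro x hx
    have h1 : IsAlgebraic R (algebraMap S K x) := hx.algebraMap
    have h2 : IsAlgebraic F0 (algebraMap S K x) := (IsFractionRing.isAlgebraic_iff R F0 K).1 h1
    exact mem_algebraicClosure_iff.2 h2
  have h1 : IsAlgebraic F (algebraMap S K (Tcl k A r)) := by
    refine abstract_step (F := F) (k := k) (K := K) hA ?_ ?_ r
    · intro s hs
      exact ⟨⟨_, hto _ (hQ s hs)⟩, rfl⟩
    · intro s hs
      exact ⟨⟨_, hto _ (hsm s hs)⟩, rfl⟩
  have h2 : IsAlgebraic F0 (algebraMap S K (Tcl k A r)) := alg_over_closure h1
  have h3 : IsAlgebraic R (algebraMap S K (Tcl k A r)) := (IsFractionRing.isAlgebraic_iff R F0 K).2 h2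
  exact (isAlgebraic_algebraMap_iff hinjSK).1 h3

end Pool.Agent.H159.GB
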