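import Pool.Agent.H159.GB.Kernel
import Pool.Agent.H159.GB.Main

/-!
# The equivalence, sets of primes, periodicity
-/

set_option autoImplicit false

namespace Pool.Agent.H159.GB

open Finset PowerSeries Pool.Agent.Helper68K9.ET

variable {p : ℕ} [hp : Fact p.Prime]

theorem sum_alg {k ι : Type} [Field k] (s : Finset ι) (f : ι → PowerSeries k)
    (h : ∀ i ∈ s, IsAlgebraic (Polynomial k) (f i)) :
    IsAlgebraic (Polynomial k) (∑ i ∈ s, f i) := by
  classical
  induction s using Finset.induction_on with
  | empty => rw [Finset.sum_empty]; exact isAlgebraic_zero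
  | insert a s ha ih =>
    rw [Finset.sum_insert ha]
    exact (h a (mem_insert_self _ _)).add (ih fun i hi => h i (mem_insert_of_mem hi))

theorem serI_sum (k : Type) [Field k] (A : Set ℕ) : serI k A = ∑ r : ZMod 420, Tcl k A r := by
  ext n
  rw [map_sum]
  simp only [serI, Tcl, coeff_mk]
  rw [Finset.sum_ite_eq]
  simp

theorem Tcl_eq_pr (k : Type) [Field k] (A : Set ℕ) (r : ZMod 420) : Tcl k A r = pr r (serI k A) := by
  ext n
  simp only [serI, Tcl, pr, coeff_mk]

theorem GG_sum (k : Type) [Field k] (A : Set ℕ) :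
    GG k A = ∑ s : ZMod 420 with 4 ∣ s.val, pr s (GG k A) := by
  ext n
  rw [map_sum]
  simp only [pr, coeff_mk]
  rw [Finset.sum_ite_eq]
  split_ifs with h
  · rfl
  · simp only [GG, coeff_mk]
    rw [if_neg]
    intro h4
    apply h
    rw [mem_filter]
    refine ⟨mem_univ _, ?_⟩
    rw [ZMod.val_natCast]
    omega

/-- the generating series of the counts modulo `p` is algebraic iff the indicator series is -/
theorem serG_iff_serI {A : Set ℕ} (hA : Tame A) :
    IsAlgebraic (Polynomial (ZMod p)) (serG (ZMod p) A) ↔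
      IsAlgebraic (Polynomial (ZMod p)) (serI (ZMod p) A) := by
  rw [serG_iff]
  constructor
  · intro h
    rw [serI_sum]
    apply sum_alg
    intro r _
    refine Tcl_algebraic hA ?_ (Tcl_small hA) r
    intro s hs
    rw [Q_eq hA s hs]
    exact pr_algebraic h s
  · intro h
    rw [GG_sum]
    apply sum_alg
    intro s hs
    rw [mem_filter] at hs
    rw [← Q_eq hA s hs.2]
    apply sum_alg
    intro r _
    rw [Tcl_eq_pr, Tcl_eq_pr]
    exact (pr_algebraic h r).mul (pr_algebraic h (s - r))

/-- a power series with eventually periodic coefficients is algebraic -/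
theorem algebraic_of_periodic {k : Type} [Field k] {f : PowerSeries k} {N P : ℕ} (hP : 0 < P)
    (h : ∀ n ≥ N, coeff (n + P) f = coeff n f) : IsAlgebraic (Polynomial k) f := by
  have h1 : IsAlgebraic (Polynomial k) ((1 - X ^ P) * f : PowerSeries k) := by
    refine algebraic_of_bounded (N + P) ?_
    intro n hn
    rw [sub_mul, one_mul, map_sub, coeff_X_pow_mul', if_pos (by omega)]
    have h2 := h (n - P) (by omega)
    have h3 : n - P + P = n := by omega
    rw [h3] at h2
    rw [h2, sub_self]
  obtain ⟨q, hq0, hq⟩ := h1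
  have hne : (1 - Polynomial.X ^ P : Polynomial k) ≠ 0 := by
    intro h2
    have h3 := congrArg (fun q => Polynomial.coeff q P) h2
    simp only [Polynomial.coeff_sub, Polynomial.coeff_one, Polynomial.coeff_X_pow, if_true,
      Polynomial.coeff_zero, if_neg hP.ne'] at h3
    simp at h3
  have h2 : ((1 - X ^ P) * f : PowerSeries k) =
      (1 - Polynomial.X ^ P : Polynomial k) • f := by
    rw [Algebra.smul_def]
    have : algebraMap (Polynomial k) (PowerSeries k) (1 - Polynomial.X ^ P) =
      ((1 - Polynomial.X ^ P : Polynomial k) : PowerSeries k) := rfl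
    rw [this, Polynomial.coe_sub, Polynomial.coe_one, Polynomial.coe_pow, Polynomial.coe_X]
  have h3 : IsAlgebraic (Polynomial k) ((1 - Polynomial.X ^ P : Polynomial k) • f) := by
    rw [← h2]; exact ⟨q, hq0, hq⟩
  exact h3.of_smul (mem_nonZeroDivisors_of_ne_zero hne)

end Pool.Agent.H159.GB
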