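import Pool.Agent.H159.GB.Series
import Pool.Graph.R_pool_sql_team_seeded_1e53cb71.Helper68K9.ET.Chr2

/-!
# Algebraic power series over `F_p`: sections, class parts, sets of primes
-/

set_option autoImplicit false

namespace Pool.Agent.H159.GB

open Finset PowerSeries Pool.Agent.Helper68K9.ET

variable {p : ℕ} [hp : Fact p.Prime]

open Classical in
/-- the part of a series in a set of classes modulo 420 -/
noncomputable def prB (B : Set (ZMod 420)) (f : PowerSeries (ZMod p)) : PowerSeries (ZMod p) :=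
  PowerSeries.mk fun n => if (n : ZMod 420) ∈ B then coeff n f else 0

theorem Lam_prB (u : ℕ) (B : Set (ZMod 420)) (f : PowerSeries (ZMod p)) :
    Lam u (prB B f) = prB {c | (p : ZMod 420) * c + u ∈ B} (Lam u f) := by
  ext n
  simp only [coeff_Lam, prB, coeff_mk]
  have h : ((p * n + u : ℕ) : ZMod 420) ∈ B ↔ (n : ZMod 420) ∈ {c | (p : ZMod 420) * c + u ∈ B} := by
    rw [Set.mem_ofPred_eq]
    push_cast
    rfl
  by_cases h1 : ((p * n + u : ℕ) : ZMod 420) ∈ B
  · rw [if_pos h1, if_pos (h.1 h1)]
  · rw [if_neg h1, if_neg (fun h2 => h1 (h.2 h2))]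

theorem prB_algebraic {f : PowerSeries (ZMod p)} (hf : IsAlgebraic (Polynomial (ZMod p)) f)
    (B : Set (ZMod 420)) : IsAlgebraic (Polynomial (ZMod p)) (prB B f) := by
  obtain ⟨S, hS, hfS, hcl⟩ := closed_of_algebraic hf
  have hfin : (Set.image2 prB (Set.univ : Set (Set (ZMod 420))) S).Finite :=
    Set.Finite.image2 _ Set.finite_univ hS
  refine algebraic_of_closed hfin ?_ ⟨B, Set.mem_univ _, f, hfS, rfl⟩
  rintro _ ⟨B', -, g, hg, rfl⟩ u hu
  rw [Lam_prB]
  exact ⟨_, Set.mem_univ _, _, hcl g hg u hu, rfl⟩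

theorem pr_algebraic {f : PowerSeries (ZMod p)} (hf : IsAlgebraic (Polynomial (ZMod p)) f)
    (j : ZMod 420) : IsAlgebraic (Polynomial (ZMod p)) (pr j f) := by
  have : pr j f = prB {j} f := by
    ext n; simp [pr, prB]
  rw [this]
  exact prB_algebraic hf _

/-- decimation -/
noncomputable def dec (v : ℕ) (f : PowerSeries (ZMod p)) : PowerSeries (ZMod p) :=
  PowerSeries.mk fun n => coeff (4 * n + v) f

theorem dec_algebraic {f : PowerSeries (ZMod p)} (hf : IsAlgebraic (Polynomial (ZMod p)) f) :
    IsAlgebraic (Polynomial (ZMod p)) (dec 0 f) := by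
  obtain ⟨S, hS, hfS, hcl⟩ := closed_of_algebraic hf
  have hfin : (Set.image2 dec (Set.Iio 4) S).Finite :=
    Set.Finite.image2 _ (Set.finite_Iio 4) hS
  refine algebraic_of_closed hfin ?_ ⟨0, by simp, f, hfS, rfl⟩
  rintro _ ⟨v, hv, g, hg, rfl⟩ u hu
  rw [Set.mem_Iio] at hv
  have hp0 := hp.out.pos
  refine ⟨(4 * u + v) / p, ?_, Lam ((4 * u + v) % p) g, hcl g hg _ (Nat.mod_lt _ hp0), ?_⟩
  · rw [Set.mem_Iio, Nat.div_lt_iff_lt_mul hp0]
    omega
  · ext n
    simp only [dec, coeff_Lam, coeff_mk]
    congr 2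
    have h1 := Nat.div_add_mod (4 * u + v) p
    calc p * (4 * n + (4 * u + v) / p) + (4 * u + v) % p
        = 4 * (p * n) + (p * ((4 * u + v) / p) + (4 * u + v) % p) := by ring
      _ = 4 * (p * n + u) + v := by rw [h1]; ring

/-- a series with coefficients vanishing beyond a bound is algebraic -/
theorem algebraic_of_bounded {k : Type} [Field k] {f : PowerSeries k} (N : ℕ)
    (h : ∀ n, N < n → coeff n f = 0) : IsAlgebraic (Polynomial k) f := by
  have : f = algebraMap (Polynomial k) (PowerSeries k) (trunc (N + 1) f) := by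
    ext n
    have h1 : algebraMap (Polynomial k) (PowerSeries k) (trunc (N + 1) f) =
      ((trunc (N + 1) f : Polynomial k) : PowerSeries k) := rfl
    rw [h1, Polynomial.coeff_coe, coeff_trunc]
    split_ifs with h2
    · rfl
    · exact h n (by omega)
  rw [this]
  exact isAlgebraic_algebraMap _

theorem Tcl_small {k : Type} [Field k] {A : Set ℕ} (hA : Tame A) (r : ZMod 420)
    (hr : Nat.gcd r.val 210 ≠ 1) : IsAlgebraic (Polynomial k) (Tcl k A r) := by
  refine algebraic_of_bounded 205 ?_
  intro n hn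
  simp only [Tcl, coeff_mk]
  split_ifs with h
  · refine ind_even hA hn ?_
    intro h1
    apply hr
    rw [← h, ZMod.val_natCast, ← h1]
    rw [Nat.gcd_comm, Nat.gcd_comm _ 210, Nat.gcd_rec 210 n, Nat.gcd_rec 210 (n % 420)]
    congr 1
    omega
  · rfl

/-- the indicator series -/
noncomputable def serI (R : Type*) [CommRing R] (A : Set ℕ) : PowerSeries R :=
  PowerSeries.mk fun n => ind R A n

/-- the series of the counts `gcount A (2k)` -/
noncomputable def serG (R : Type*) [CommRing R] (A : Set ℕ) : PowerSeries R :=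
  PowerSeries.mk fun k => (gcount A (2 * k) : R)

theorem GG_eq_expand {k : Type} [Field k] (A : Set ℕ) :
    GG k A = PowerSeries.expand 4 (by norm_num) (serG k A) := by
  ext n
  rw [PowerSeries.coeff_expand]
  simp only [GG, serG, coeff_mk]
  by_cases h : 4 ∣ n
  · rw [if_pos h, if_pos h]
    congr 2
    omega
  · rw [if_neg h, if_neg h]

theorem expand_algebraic {k : Type} [Field k] {f : PowerSeries k}
    (hf : IsAlgebraic (Polynomial k) f) :
    IsAlgebraic (Polynomial k) (PowerSeries.expand 4 (by norm_num) f) := by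
  refine hf.ringHom_of_comp_eq (Polynomial.expand k 4 : Polynomial k →ₐ[k] Polynomial k)
    (PowerSeries.expand 4 (by norm_num) : PowerSeries k →ₐ[k] PowerSeries k)
    (Polynomial.expand_injective (by norm_num)) ?_
  apply RingHom.ext
  intro q
  have h1 : ∀ q : Polynomial k, algebraMap (Polynomial k) (PowerSeries k) q = (q : PowerSeries k) :=
    fun _ => rfl
  ext n
  simp only [RingHom.comp_apply, RingHom.coe_coe]
  rw [h1, h1, Polynomial.coeff_coe, PowerSeries.coeff_expand, Polynomial.coeff_expand (by norm_num),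
    Polynomial.coeff_coe]

theorem serG_iff (A : Set ℕ) :
    IsAlgebraic (Polynomial (ZMod p)) (serG (ZMod p) A) ↔
      IsAlgebraic (Polynomial (ZMod p)) (GG (ZMod p) A) := by
  constructor
  · intro h
    rw [GG_eq_expand]
    exact expand_algebraic h
  · intro h
    have h1 := dec_algebraic h
    have h2 : dec 0 (GG (ZMod p) A) = serG (ZMod p) A := by
      ext n
      simp only [dec, GG, serG, coeff_mk]
      rw [if_pos ⟨n, by ring⟩]
      congr 2
      omega
    rwa [h2] at h1

end Pool.Agent.H159.GB
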