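import Pool.Agent.H159.GB.Equiv

/-!
# Infinite sets of primes are not automatic
-/

set_option autoImplicit false

namespace Pool.Agent.H159.GB

open Finset PowerSeries Pool.Agent.Helper68K9.ET

variable {l : ℕ} [hl : Fact l.Prime]

theorem ind_eq_iff {A : Set ℕ} {m n : ℕ} : ind (ZMod l) A m = ind (ZMod l) A n ↔ (m ∈ A ↔ n ∈ A) := by
  have : Fact (1 < l) := ⟨hl.out.one_lt⟩
  by_cases h1 : m ∈ A
  · by_cases h2 : n ∈ A
    · rw [ind_of_mem h1, ind_of_mem h2]; simp [h1, h2]
    · rw [ind_of_mem h1, ind_of_not_mem h2]; simp [h1, h2]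
  · by_cases h2 : n ∈ A
    · rw [ind_of_not_mem h1, ind_of_mem h2]; simp [h1, h2]
    · rw [ind_of_not_mem h1, ind_of_not_mem h2]; simp [h1, h2]

/-- iterated sections along an arbitrary block of digits -/
theorem section_mem {S : Set (PowerSeries (ZMod l))} (hcl : ∀ f ∈ S, ∀ u < l, Lam u f ∈ S)
    {a : ℕ → ZMod l} (ha : PowerSeries.mk a ∈ S) (d : ℕ) :
    ∀ r < l ^ d, PowerSeries.mk (fun n => a (l ^ d * n + r)) ∈ S := by
  induction d with
  | zero =>
    intro r hr
    have : r = 0 := by simpa using hr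
    subst this
    simpa using ha
  | succ d ih =>
    intro r hr
    have hpos : 0 < l ^ d := pow_pos hl.out.pos d
    have h1 := ih (r % l ^ d) (Nat.mod_lt _ hpos)
    have h2 : r / l ^ d < l := by
      rw [Nat.div_lt_iff_lt_mul hpos]
      rwa [pow_succ, mul_comm] at hr
    have h3 := hcl _ h1 _ h2
    have h4 : Lam (r / l ^ d) (PowerSeries.mk (fun n => a (l ^ d * n + r % l ^ d))) =
        PowerSeries.mk (fun n => a (l ^ (d + 1) * n + r)) := by
      ext n
      simp only [coeff_Lam, coeff_mk]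
      congr 1
      have h5 := Nat.div_add_mod r (l ^ d)
      calc l ^ d * (l * n + r / l ^ d) + r % l ^ d = l ^ (d + 1) * n + (l ^ d * (r / l ^ d) + r % l ^ d) := by
            ring
        _ = _ := by rw [h5]
    rwa [h4] at h3

/-- an infinite set of primes has a transcendental indicator series modulo every prime -/
theorem primes_not_algebraic {A : Set ℕ} (hA : ∀ n ∈ A, n.Prime) (hinf : A.Infinite) :
    ¬ IsAlgebraic (Polynomial (ZMod l)) (serI (ZMod l) A) := by
  intro halg
  obtain ⟨S, hS, hfS, hcl⟩ := closed_of_algebraic halg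
  -- a large element of `A`
  set t := hS.toFinset.card with ht
  obtain ⟨q, hqA, hq⟩ := hinf.exists_gt (l ^ (t + 1))
  have hqp := hA q hqA
  have hlpos := hl.out.pos
  have hl2 := hl.out.two_le
  -- pigeonhole
  have hmap : ∀ d ∈ range (t + 1), PowerSeries.mk (fun n => ind (ZMod l) A (l ^ d * n + q % l ^ d)) ∈ hS.toFinset := by
    intro d _
    rw [Set.Finite.mem_toFinset]
    exact section_mem hcl hfS d _ (Nat.mod_lt _ (pow_pos hlpos d))
  have hcard : hS.toFinset.card < (range (t + 1)).card := by rw [card_range]; omega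
  obtain ⟨x, hx, y, hy, hxy, hEq⟩ := Finset.exists_ne_map_eq_of_card_lt_of_maps_to hcard hmap
  wlog hlt : x < y generalizing x y
  · exact this y hy x hx hxy.symm hEq.symm (by omega)
  rw [mem_range] at hx hy
  obtain ⟨d, rfl⟩ : ∃ d, y = x + (d + 1) := ⟨y - x - 1, by omega⟩
  have hxpos : 0 < l ^ x := pow_pos hlpos x
  set rx := q % l ^ x with hrx
  set nx := q / l ^ x with hnx
  have hq1 : l ^ x * nx + rx = q := Nat.div_add_mod q (l ^ x)
  set w := nx % l ^ (d + 1) with hw
  have hry : q % l ^ (x + (d + 1)) = l ^ x * w + rx := by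
    rw [pow_add, Nat.mod_mul]
    rw [hw, hnx, hrx, add_comm]
  -- invariance
  have hinv : ∀ n, (l ^ x * n + rx ∈ A ↔ l ^ x * (l ^ (d + 1) * n + w) + rx ∈ A) := by
    intro n
    have h1 := congrArg (coeff n) hEq
    rw [coeff_mk, coeff_mk, ind_eq_iff, hry] at h1
    rw [h1]
    have : l ^ (x + (d + 1)) * n + (l ^ x * w + rx) = l ^ x * (l ^ (d + 1) * n + w) + rx := by
      rw [pow_add]; ring
    rw [this]
  let φ : ℕ → ℕ := fun n => l ^ (d + 1) * n + w
  have hiter : ∀ j, l ^ x * (φ^[j] nx) + rx ∈ A := by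
    intro j
    induction j with
    | zero => simpa [hq1] using hqA
    | succ j ih =>
      rw [Function.iterate_succ_apply']
      exact (hinv _).1 ih
  have hqx : l ^ x ≤ q := by
    have : l ^ x ≤ l ^ (t + 1) := Nat.pow_le_pow_right hlpos (by omega)
    omega
  have hnx1 : 1 ≤ nx := by
    rw [hnx]; exact Nat.div_pos hqx hxpos
  have hφ : ∀ n, 1 ≤ n → n < φ n := by
    intro n hn
    have h1 : 2 ≤ l ^ (d + 1) := by
      calc 2 ≤ l := hl2
        _ = l ^ 1 := (pow_one l).symm
        _ ≤ l ^ (d + 1) := Nat.pow_le_pow_right hlpos (by omega)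
    have h2 : 2 * n ≤ l ^ (d + 1) * n := Nat.mul_le_mul_right n h1
    exact lt_of_lt_of_le (by omega : n < l ^ (d + 1) * n) (Nat.le_add_right _ _)
  have hgt : ∀ j, nx ≤ φ^[j] nx ∧ (0 < j → nx < φ^[j] nx) := by
    intro j
    induction j with
    | zero => exact ⟨le_refl _, fun h => absurd h (lt_irrefl _)⟩
    | succ j ih =>
      rw [Function.iterate_succ_apply']
      have := hφ _ (le_trans hnx1 ih.1)
      exact ⟨by omega, fun _ => by omega⟩
  -- the map modulo `q`
  have : Fact q.Prime := ⟨hqp⟩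
  have hlq : l < q := by
    have : l ^ 1 ≤ l ^ (t + 1) := Nat.pow_le_pow_right hlpos (by omega)
    rw [pow_one] at this
    omega
  have hlne : (l : ZMod q) ≠ 0 := by
    intro h
    rw [ZMod.natCast_eq_zero_iff] at h
    exact absurd (Nat.le_of_dvd hlpos h) (by omega)
  let g : ZMod q → ZMod q := fun z => (l : ZMod q) ^ (d + 1) * z + w
  have hginj : Function.Injective g := by
    intro a b hab
    have h1 : (l : ZMod q) ^ (d + 1) * a = (l : ZMod q) ^ (d + 1) * b := add_right_cancel hab
    exact mul_left_cancel₀ (pow_ne_zero _ hlne) h1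
  let σ : Equiv.Perm (ZMod q) := Equiv.ofBijective g (Finite.injective_iff_bijective.1 hginj)
  have hcomm : ∀ j, ((φ^[j] nx : ℕ) : ZMod q) = (σ ^ j) (nx : ZMod q) := by
    intro j
    induction j with
    | zero => simp
    | succ j ih =>
      rw [Function.iterate_succ_apply', pow_succ', Equiv.Perm.mul_apply, ← ih]
      change ((l ^ (d + 1) * (φ^[j] nx) + w : ℕ) : ZMod q) = (l : ZMod q) ^ (d + 1) * _ + w
      push_cast
      rfl
  have hord : 0 < orderOf σ := orderOf_pos σ
  have h1 := hcomm (orderOf σ)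
  rw [pow_orderOf_eq_one, Equiv.Perm.one_apply] at h1
  set P := l ^ x * (φ^[orderOf σ] nx) + rx with hP
  have hPA := hiter (orderOf σ)
  have hPp := hA _ hPA
  have hdvd : q ∣ P := by
    rw [← ZMod.natCast_eq_zero_iff, hP]
    push_cast
    rw [h1]
    have h2 : ((l ^ x * nx + rx : ℕ) : ZMod q) = 0 := by rw [hq1]; simp
    push_cast at h2
    exact h2
  have hPq : P = q := by
    rcases (Nat.dvd_prime hPp).1 hdvd with h2 | h2
    · exact absurd h2 hqp.one_lt.ne'
    · exact h2.symm
  have h2 := (hgt (orderOf σ)).2 hord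
  have h3 : l ^ x * nx < l ^ x * (φ^[orderOf σ] nx) := Nat.mul_lt_mul_of_pos_left h2 hxpos
  omega

end Pool.Agent.H159.GB
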