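import Pool.Agent.H159.GB.Count

/-!
# Power series with class decomposition modulo 420
-/

set_option autoImplicit false

namespace Pool.Agent.H159.GB

open Finset PowerSeries

variable {R : Type*} [CommRing R]

/-- the part of the indicator series of `A` in the class `j` modulo `420` -/
noncomputable def Tcl (R : Type*) [CommRing R] (A : Set ℕ) (j : ZMod 420) : PowerSeries R :=
  PowerSeries.mk fun n => if (n : ZMod 420) = j then ind R A n else 0

theorem coeff_Tcl_sum (A : Set ℕ) (y : ZMod 420 → PowerSeries R) (s : ZMod 420) (M : ℕ) :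
    coeff M (∑ r : ZMod 420, Tcl R A (s - r) * y r) =
      ∑ j ∈ range (M + 1), ind R A (M - j) * coeff j (y (s - ((M - j : ℕ) : ZMod 420))) := by
  rw [map_sum]
  simp_rw [coeff_mul]
  rw [Finset.sum_comm]
  have h1 : ∀ x ∈ antidiagonal M, ∑ r : ZMod 420, coeff x.1 (Tcl R A (s - r)) * coeff x.2 (y r) =
      ind R A x.1 * coeff x.2 (y (s - (x.1 : ZMod 420))) := by
    intro x _
    rw [Finset.sum_eq_single (s - (x.1 : ZMod 420))]
    · simp [Tcl]
    · intro r _ hr
      simp only [Tcl, coeff_mk]
      rw [if_neg, zero_mul]
      intro h2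
      apply hr
      rw [h2]; ring
    · intro h; exact absurd (Finset.mem_univ _) h
  rw [Finset.sum_congr rfl h1]
  rw [Finset.Nat.sum_antidiagonal_eq_sum_range_succ (fun a b => ind R A a * coeff b (y (s - (a : ZMod 420))))]
  rw [← Finset.sum_range_reflect]
  apply Finset.sum_congr rfl
  intro j hj
  rw [mem_range] at hj
  have h2 : M.succ - 1 - j = M - j := by omega
  have h3 : M - (M - j) = j := by omega
  rw [h2, h3]

theorem unique_series {A : Set ℕ} (hA : Tame A) (y : ZMod 420 → PowerSeries R)
    (hy : ∀ r : ZMod 420, Nat.gcd r.val 210 ≠ 1 → y r = 0)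
    (hsum : ∀ s : ZMod 420, 4 ∣ s.val → ∑ r : ZMod 420, Tcl R A (s - r) * y r = 0) :
    ∀ r, y r = 0 := by
  have key : ∀ N : ℕ, ∀ r, coeff N (y r) = 0 := by
    intro N
    induction N using Nat.strong_induction_on with
    | _ N ih =>
      intro r
      by_cases hr : Nat.gcd r.val 210 = 1
      swap
      · rw [hy r hr]; simp
      have hcore := core (R := R) r.val hr (fun i => coeff (N + i) (y (r + (i : ZMod 420)))) ?_ ?_
      · simpa using hcore
      · intro i hi
        have h1 : Nat.gcd (r + (i : ZMod 420)).val 210 ≠ 1 := by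
          intro h2
          apply hi
          rw [← h2]
          have h3 : (r + (i : ZMod 420)).val = (r.val + i) % 420 := by
            rw [ZMod.val_add, ZMod.val_natCast, Nat.add_mod_mod]
          rw [h3, Nat.gcd_comm, Nat.gcd_comm _ 210, Nat.gcd_rec 210 (r.val + i),
            Nat.gcd_rec 210 ((r.val + i) % 420)]
          congr 1
          omega
        rw [hy _ h1]; simp
      · intro e he h4
        have h5 : (r + (e : ZMod 420)).val = (r.val + e) % 420 := by
          rw [ZMod.val_add, ZMod.val_natCast, Nat.add_mod_mod]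
        have h6 := hsum (r + (e : ZMod 420)) (by rw [h5]; omega)
        have h7 := congrArg (coeff (N + e)) h6
        rw [coeff_Tcl_sum, map_zero] at h7
        have h8 : N + e + 1 = N + (e + 1) := by omega
        rw [h8, Finset.sum_range_add] at h7
        have h9 : ∑ j ∈ range N, ind R A (N + e - j) *
            coeff j (y (r + (e : ZMod 420) - ((N + e - j : ℕ) : ZMod 420))) = 0 := by
          apply Finset.sum_eq_zero
          intro j hj
          rw [mem_range] at hj
          rw [ih j hj, mul_zero]
        rw [h9, zero_add] at h7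
        refine Eq.trans ?_ h7
        apply Finset.sum_congr rfl
        intro i hi
        rw [mem_range] at hi
        have h10 : N + e - (N + i) = e - i := by omega
        rw [h10, ind_small hA (by omega)]
        have h11 : r + (e : ZMod 420) - ((e - i : ℕ) : ZMod 420) = r + (i : ZMod 420) := by
          rw [Nat.cast_sub (by omega)]; ring
        rw [h11]
        split_ifs <;> simp
  intro r
  ext N
  rw [key N r]; simp

/-- the part of a power series in the class `j` modulo `420` -/
noncomputable def pr (j : ZMod 420) (f : PowerSeries R) : PowerSeries R :=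
  PowerSeries.mk fun n => if (n : ZMod 420) = j then coeff n f else 0

/-- the series of the counts at `4k`, placed at the exponent `4k` -/
noncomputable def GG (R : Type*) [CommRing R] (A : Set ℕ) : PowerSeries R :=
  PowerSeries.mk fun n => if 4 ∣ n then (gcount A (n / 2) : R) else 0

theorem Q_eq {A : Set ℕ} (hA : Tame A) (s : ZMod 420) (hs : 4 ∣ s.val) :
    ∑ r : ZMod 420 with r.val % 4 = 1, Tcl R A r * Tcl R A (s - r) = pr s (GG R A) := by
  ext M
  rw [map_sum]
  simp_rw [coeff_mul]
  rw [Finset.sum_comm]
  have h1 : ∀ x ∈ antidiagonal M, ∑ r : ZMod 420 with r.val % 4 = 1,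
      coeff x.1 (Tcl R A r) * coeff x.2 (Tcl R A (s - r)) =
      if (M : ZMod 420) = s then (if x.1 % 4 = 1 then ind R A x.1 * ind R A x.2 else 0) else 0 := by
    intro x hx
    rw [Finset.HasAntidiagonal.mem_antidiagonal] at hx
    have hval : ((x.1 : ℕ) : ZMod 420).val % 4 = x.1 % 4 := by
      rw [ZMod.val_natCast]; omega
    by_cases h4 : x.1 % 4 = 1
    · rw [Finset.sum_eq_single ((x.1 : ℕ) : ZMod 420)]
      · simp only [Tcl, coeff_mk, if_true]
        have h5 : ((x.2 : ℕ) : ZMod 420) = s - (x.1 : ZMod 420) ↔ (M : ZMod 420) = s := by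
          rw [← hx, eq_sub_iff_add_eq]
          push_cast
          rw [add_comm]
        by_cases h6 : (M : ZMod 420) = s
        · rw [if_pos (h5.2 h6), if_pos h6, if_pos h4]
        · rw [if_neg (fun h => h6 (h5.1 h)), if_neg h6, mul_zero]
      · intro r _ hr
        simp only [Tcl, coeff_mk]
        rw [if_neg (fun h => hr h.symm), zero_mul]
      · intro h
        exfalso
        apply h
        rw [mem_filter]
        exact ⟨mem_univ _, by rw [hval, h4]⟩
    · rw [if_neg h4]
      rw [Finset.sum_eq_zero]
      · simp
      · intro r hr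
        rw [mem_filter] at hr
        simp only [Tcl, coeff_mk]
        rw [if_neg, zero_mul]
        intro h
        apply h4
        rw [← hval, h, hr.2]
  rw [Finset.sum_congr rfl h1]
  simp only [pr, GG, coeff_mk]
  by_cases hM : (M : ZMod 420) = s
  · simp only [if_pos hM]
    have h4 : 4 ∣ M := by
      have h5 : (M : ZMod 420).val = s.val := by rw [hM]
      rw [ZMod.val_natCast] at h5
      omega
    rw [if_pos h4]
    obtain ⟨k, rfl⟩ := h4
    have h6 : 4 * k / 2 = 2 * k := by omega
    rw [h6, gcount_eq hA]
    rw [Finset.Nat.sum_antidiagonal_eq_sum_range_succ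
      (fun a b => if a % 4 = 1 then ind R A a * ind R A b else 0)]
  · simp only [if_neg hM]
    simp

end Pool.Agent.H159.GB
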