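import Pool.Agent.H159.GB.Count

/-!
# Numbers of solutions of `n - x ∈ A`, `n + x ∈ A` modulo `m`
-/

set_option autoImplicit false

namespace Pool.Agent.H159.GB

open Finset

/-- the number of the integers `x` such that `n - x` and `n + x` are elements of `A` -/
noncomputable def solCount (A : Set ℕ) (n : ℕ) : ℕ :=
  {x : ℤ | ∃ a ∈ A, ∃ b ∈ A, (a : ℤ) = n - x ∧ (b : ℤ) = n + x}.ncard

theorem solCount_eq {R : Type*} [CommRing R] (A : Set ℕ) (n : ℕ) :
    (solCount A n : R) = ∑ i ∈ range (2 * n + 1), ind R A i * ind R A (2 * n - i) := by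
  classical
  have h1 : {x : ℤ | ∃ a ∈ A, ∃ b ∈ A, (a : ℤ) = n - x ∧ (b : ℤ) = n + x}.ncard =
      ((range (2 * n + 1)).filter fun i => i ∈ A ∧ 2 * n - i ∈ A).card := by
    rw [← Set.ncard_coe_finset]
    refine Set.ncard_congr (fun x _ => ((n : ℤ) - x).toNat) ?_ ?_ ?_
    · rintro x ⟨a, ha, b, hb, hax, hbx⟩
      simp only [coe_filter, mem_range, Set.mem_ofPred_eq]
      have h1 : ((n : ℤ) - x).toNat = a := by omega
      have h2 : 2 * n - a = b := by omega
      rw [h1, h2]
      exact ⟨by omega, ha, hb⟩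
    · rintro x y ⟨a, ha, b, hb, hax, hbx⟩ ⟨a', ha', b', hb', hax', hbx'⟩ h
      omega
    · intro i hi
      simp only [coe_filter, mem_range, Set.mem_ofPred_eq] at hi
      obtain ⟨hi1, hi2, hi3⟩ := hi
      refine ⟨(n : ℤ) - i, ⟨i, hi2, 2 * n - i, hi3, by omega, by omega⟩, by omega⟩
  unfold solCount
  rw [h1, Finset.card_filter]
  push_cast
  apply Finset.sum_congr rfl
  intro i _
  unfold ind
  by_cases h3 : i ∈ A
  · by_cases h4 : 2 * n - i ∈ A
    · simp [h3, h4]
    · simp [h3, h4]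
  · simp [h3]

/-- the core lemma for the classes `0` and `2` modulo `4` -/
theorem core' {R : Type*} [CommRing R] (c : ℕ) (n0 : ℕ) (h0 : Nat.gcd n0 210 = 1) (z : ℕ → R)
    (hz : ∀ i, Nat.gcd (n0 + i) 210 ≠ 1 → z i = 0)
    (heq : ∀ e ≤ 205, (n0 + e) % 4 = (2 * c) % 4 →
      ∑ i ∈ range (e + 1), (if (e - i).Prime then z i else 0) = 0) :
    z 0 = 0 := by
  have hg : ∀ i, Nat.gcd (n0 + 210 * c + i) 210 = Nat.gcd (n0 + i) 210 := by
    intro i
    rw [Nat.gcd_comm, Nat.gcd_comm (n0 + i)]
    rw [Nat.gcd_rec 210 (n0 + 210 * c + i), Nat.gcd_rec 210 (n0 + i)]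
    congr 1
    omega
  refine core (n0 + 210 * c) ?_ z ?_ ?_
  · have := hg 0
    simp only [add_zero] at this
    rw [this, h0]
  · intro i hi
    rw [hg] at hi
    exact hz i hi
  · intro e he h4
    refine heq e he ?_
    omega

/-- rigidity: the numbers of solutions modulo `m ≥ 3` for the `n ≤ K` of one parity determine the set
up to `2K - 205` -/
theorem sol_rigidity {A B : Set ℕ} (hA : Tame A) (hB : Tame B) {m : ℕ} (hm : 3 ≤ m) {K c : ℕ}
    (h : ∀ n ≤ K, n % 2 = c % 2 → solCount A n ≡ solCount B n [MOD m]) {j : ℕ}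
    (hj : j + 205 ≤ 2 * K) : j ∈ A ↔ j ∈ B := by
  classical
  by_contra hcon
  have hex : ∃ n, n + 205 ≤ 2 * K ∧ ¬ (n ∈ A ↔ n ∈ B) := ⟨j, hj, hcon⟩
  obtain ⟨n0, ⟨hn0, hne⟩, hmin⟩ : ∃ n0, (n0 + 205 ≤ 2 * K ∧ ¬ (n0 ∈ A ↔ n0 ∈ B)) ∧
      ∀ j < n0, (j ∈ A ↔ j ∈ B) := by
    refine ⟨Nat.find hex, Nat.find_spec hex, fun j hj => ?_⟩
    have h1 := Nat.find_min hex hj
    have h2 := (Nat.find_spec hex).1
    by_contra h3
    exact h1 ⟨by omega, h3⟩
  have hbig : 205 < n0 := by
    by_contra hle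
    apply hne
    rw [hA.1 n0 (by omega), hB.1 n0 (by omega)]
  have hgcd : Nat.gcd n0 210 = 1 := by
    by_contra hg
    apply hne
    constructor
    · intro h1; exact absurd (hA.2 n0 h1 hbig) hg
    · intro h1; exact absurd (hB.2 n0 h1 hbig) hg
  set a : ℕ → ZMod m := ind (ZMod m) A with ha
  set b : ℕ → ZMod m := ind (ZMod m) B with hb
  have hδ : ∀ j < n0, b j - a j = 0 := by
    intro j hj
    have := hmin j hj
    simp only [ha, hb]
    by_cases h1 : j ∈ A
    · rw [ind_of_mem h1, ind_of_mem (this.1 h1), sub_self]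
    · rw [ind_of_not_mem h1, ind_of_not_mem (fun h2 => h1 (this.2 h2)), sub_self]
  have hcore : 2 * (b (n0 + 0) - a (n0 + 0)) = 0 := by
    refine core' c n0 hgcd (fun i => 2 * (b (n0 + i) - a (n0 + i))) ?_ ?_
    · intro i hi
      simp only [ha, hb]
      rw [ind_even hA (by omega) hi, ind_even hB (by omega) hi, sub_zero, mul_zero]
    · intro e he h4
      obtain ⟨n, hn⟩ : ∃ n, n0 + e = 2 * n := ⟨(n0 + e) / 2, by omega⟩
      have h5 := (ZMod.natCast_eq_natCast_iff _ _ _).2 (h n (by omega) (by omega))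
      rw [solCount_eq, solCount_eq] at h5
      have h6 : ∑ i ∈ range (2 * n + 1), (b i * b (2 * n - i) - a i * a (2 * n - i)) = 0 := by
        rw [Finset.sum_sub_distrib, ← h5, sub_self]
      have h7 : ∀ i ∈ range (2 * n + 1), (b i * b (2 * n - i) - a i * a (2 * n - i)) =
          a i * (b (2 * n - i) - a (2 * n - i)) + (b i - a i) * a (2 * n - i) := by
        intro i hi
        rw [mem_range] at hi
        have h8 : (b i - a i) * (b (2 * n - i) - a (2 * n - i)) = 0 := by
          by_cases h9 : i < n0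
          · rw [hδ i h9, zero_mul]
          · rw [hδ (2 * n - i) (by omega), mul_zero]
        linear_combination h8
      rw [Finset.sum_congr rfl h7, Finset.sum_add_distrib] at h6
      have h8 : ∑ i ∈ range (2 * n + 1), a i * (b (2 * n - i) - a (2 * n - i)) =
          ∑ i ∈ range (2 * n + 1), (b i - a i) * a (2 * n - i) := by
        rw [← Finset.sum_range_reflect]
        apply Finset.sum_congr rfl
        intro i hi
        rw [mem_range] at hi
        have h9 : 2 * n + 1 - 1 - i = 2 * n - i := by omega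
        have h10 : 2 * n - (2 * n - i) = i := by omega
        rw [h9, h10, mul_comm]
      rw [h8, ← two_mul, Finset.mul_sum] at h6
      have h10 : 2 * n + 1 = n0 + (e + 1) := by omega
      rw [h10, Finset.sum_range_add] at h6
      have h10' : ∑ x ∈ range n0, 2 * ((b x - a x) * a (2 * n - x)) = 0 := by
        apply Finset.sum_eq_zero
        intro i hi
        rw [mem_range] at hi
        rw [hδ i hi, zero_mul, mul_zero]
      rw [h10', zero_add] at h6
      refine Eq.trans ?_ h6
      apply Finset.sum_congr rfl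
      intro i hi
      rw [mem_range] at hi
      have h11 : 2 * n - (n0 + i) = e - i := by omega
      rw [h11]
      have h12 : a (e - i) = if (e - i).Prime then 1 else 0 := ind_small hA (by omega)
      rw [h12]
      split_ifs <;> simp
  rw [add_zero] at hcore
  have h2 : (2 : ZMod m) ≠ 0 := by
    intro h
    have h3 : ((2 : ℕ) : ZMod m) = 0 := by exact_mod_cast h
    rw [ZMod.natCast_eq_zero_iff] at h3
    exact absurd (Nat.le_of_dvd (by norm_num) h3) (by omega)
  apply hne
  simp only [ha, hb] at hcore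
  by_cases h1 : n0 ∈ A
  · by_cases h3 : n0 ∈ B
    · exact ⟨fun _ => h3, fun _ => h1⟩
    · rw [ind_of_mem h1, ind_of_not_mem h3] at hcore
      exfalso
      apply h2
      linear_combination -hcore
  · by_cases h3 : n0 ∈ B
    · rw [ind_of_mem h3, ind_of_not_mem h1] at hcore
      exfalso
      apply h2
      linear_combination hcore
    · exact ⟨fun h => absurd h h1, fun h => absurd h h3⟩


theorem gcount_eq' {R : Type*} [CommRing R] (A : Set ℕ) (n : ℕ) :
    (gcount A n : R) = ∑ i ∈ range n, ind R A i * ind R A (2 * n - i) := by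
  classical
  have h1 : {x : ℕ × ℕ | x.1 ∈ A ∧ x.2 ∈ A ∧ x.1 + x.2 = 2 * n ∧ n < x.1 ∧ x.2 < n}.ncard =
      ((range n).filter fun i => i ∈ A ∧ 2 * n - i ∈ A).card := by
    rw [← Set.ncard_coe_finset]
    refine Set.ncard_congr (fun x _ => x.2) ?_ ?_ ?_
    · rintro ⟨x, y⟩ ⟨hx, hy, hs, h1, h2⟩
      simp only at hx hy hs h1 h2
      simp only [coe_filter, mem_range, Set.mem_ofPred_eq]
      have h3 : 2 * n - y = x := by omega
      rw [h3]
      exact ⟨h2, hy, hx⟩
    · rintro ⟨x, y⟩ ⟨x', y'⟩ ⟨hx, hy, hs, h1, h2⟩ ⟨hx', hy', hs', h1', h2'⟩ h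
      simp only at hs hs' h
      rw [Prod.mk.injEq]
      omega
    · intro i hi
      simp only [coe_filter, mem_range, Set.mem_ofPred_eq] at hi
      obtain ⟨hi1, hi2, hi3⟩ := hi
      refine ⟨(2 * n - i, i), ⟨hi3, hi2, ?_, ?_, ?_⟩, rfl⟩
      · simp only; omega
      · simp only; omega
      · simp only; omega
  unfold gcount
  rw [h1, Finset.card_filter]
  push_cast
  apply Finset.sum_congr rfl
  intro i _
  unfold ind
  by_cases h3 : i ∈ A
  · by_cases h4 : 2 * n - i ∈ A
    · simp [h3, h4]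
    · simp [h3, h4]
  · simp [h3]

open Classical in
theorem sol_eq_two_g (A : Set ℕ) (n : ℕ) :
    solCount A n = 2 * gcount A n + (if n ∈ A then 1 else 0) := by
  have h : ((solCount A n : ℕ) : ℤ) = ((2 * gcount A n + (if n ∈ A then 1 else 0) : ℕ) : ℤ) := by
    rw [solCount_eq]
    push_cast
    rw [gcount_eq']
    have h1 : 2 * n + 1 = n + (n + 1) := by ring
    rw [h1, Finset.sum_range_add, Finset.sum_range_succ']
    have h2 : ∑ k ∈ range n, ind ℤ A (n + (k + 1)) * ind ℤ A (2 * n - (n + (k + 1))) =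
        ∑ i ∈ range n, ind ℤ A i * ind ℤ A (2 * n - i) := by
      rw [← Finset.sum_range_reflect]
      apply Finset.sum_congr rfl
      intro i hi
      rw [mem_range] at hi
      have h3 : n + (n - 1 - i + 1) = 2 * n - i := by omega
      have h4 : 2 * n - (2 * n - i) = i := by omega
      rw [h3, h4, mul_comm]
    rw [h2]
    have h3 : 2 * n - (n + 0) = n := by omega
    rw [h3, add_zero]
    have h4 : ind ℤ A n * ind ℤ A n = if n ∈ A then 1 else 0 := by
      unfold ind
      split_ifs <;> simp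
    rw [h4]
    ring
  exact_mod_cast h

/-- the elements up to `205` are the primes, the others are in `S` -/
def setOf (S : Finset ℕ) : Set ℕ := {n | (n ≤ 205 ∧ n.Prime) ∨ n ∈ S}

/-- numbers coprime to `30` between `210` and `30 J` -/
def units30 (J : ℕ) : Finset ℕ :=
  (range (8 * (J - 7))).image fun t => 30 * (7 + t / 8) + [1, 7, 11, 13, 17, 19, 23, 29].getD (t % 8) 0

theorem units30_card (J : ℕ) : (units30 J).card = 8 * (J - 7) := by
  unfold units30
  rw [Finset.card_image_of_injOn, card_range]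
  intro s _ t _ h
  simp only at h
  have hs := Nat.mod_lt s (show 0 < 8 by norm_num)
  have ht := Nat.mod_lt t (show 0 < 8 by norm_num)
  have key : ∀ i < 8, ∀ j < 8, ∀ a b : ℕ, 30 * (7 + a) + [1, 7, 11, 13, 17, 19, 23, 29].getD i 0 =
      30 * (7 + b) + [1, 7, 11, 13, 17, 19, 23, 29].getD j 0 → a = b ∧ i = j := by
    intro i hi j hj a b h
    interval_cases i <;> interval_cases j <;> simp at h ⊢ <;> omega
  have := key _ hs _ ht _ _ h
  omega

theorem units30_mem {J n : ℕ} (h : n ∈ units30 J) : 205 < n ∧ n < 30 * J ∧ Nat.gcd n 30 = 1 := by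
  unfold units30 at h
  rw [mem_image] at h
  obtain ⟨t, ht, rfl⟩ := h
  rw [mem_range] at ht
  have h8 := Nat.mod_lt t (show 0 < 8 by norm_num)
  have key : ∀ i < 8, ([1, 7, 11, 13, 17, 19, 23, 29].getD i 0 : ℕ) < 30 ∧
      Nat.gcd ([1, 7, 11, 13, 17, 19, 23, 29].getD i 0) 30 = 1 := by
    decide
  obtain ⟨h1, h2⟩ := key _ h8
  refine ⟨by omega, by omega, ?_⟩
  rw [Nat.gcd_comm, Nat.gcd_mul_left_add_right, Nat.gcd_comm]
  exact h2


theorem setOf_small {S : Finset ℕ} (hS : ∀ n ∈ S, 205 < n) (n : ℕ) (hn : n ≤ 205) :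
    n ∈ setOf S ↔ n.Prime := by
  constructor
  · rintro (h | h)
    · exact h.2
    · exact absurd (hS n h) (by omega)
  · intro h
    exact Or.inl ⟨hn, h⟩

theorem setOf_big {S : Finset ℕ} (n : ℕ) (hn : 205 < n) : n ∈ setOf S ↔ n ∈ S := by
  constructor
  · rintro (h | h)
    · omega
    · exact h
  · exact fun h => Or.inr h

/-- without the prime `7` there are different sets with the same numbers of solutions modulo `4` -/
theorem seven_needed (K : ℕ) (hK : 3600 ≤ K) : ∃ A B : Set ℕ, A ≠ B ∧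
    (∀ n ≤ 205, (n ∈ A ↔ n.Prime) ∧ (n ∈ B ↔ n.Prime)) ∧
    (∀ n ∈ A ∪ B, 205 < n → Nat.gcd n 30 = 1 ∧ n + 205 ≤ 2 * K) ∧
    ∀ n ≤ K, n % 2 = 0 → solCount A n ≡ solCount B n [MOD 4] := by
  classical
  set J := (2 * K - 205) / 30 with hJ
  let f : Finset ℕ → (Fin (K / 2 + 1) → ZMod 2) := fun S k => (gcount (setOf S) (2 * (k : ℕ)) : ZMod 2)
  have hcard : (univ : Finset (Fin (K / 2 + 1) → ZMod 2)).card < (units30 J).powerset.card := by
    rw [Finset.card_powerset, units30_card, Finset.card_univ, Fintype.card_fun, ZMod.card,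
      Fintype.card_fin]
    exact Nat.pow_lt_pow_right (by norm_num) (by omega)
  obtain ⟨S, hS, S', hS', hne, hEq⟩ := Finset.exists_ne_map_eq_of_card_lt_of_maps_to
    (f := f) hcard (fun a _ => mem_univ _)
  rw [mem_powerset] at hS hS'
  have hb : ∀ n ∈ S, 205 < n := fun n hn => (units30_mem (hS hn)).1
  have hb' : ∀ n ∈ S', 205 < n := fun n hn => (units30_mem (hS' hn)).1
  refine ⟨setOf S, setOf S', ?_, ?_, ?_, ?_⟩
  · intro h
    apply hne
    ext n
    by_cases hn : 205 < n
    · rw [← setOf_big n hn, ← setOf_big n hn, h]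
    · constructor
      · intro h1; exact absurd (hb n h1) hn
      · intro h1; exact absurd (hb' n h1) hn
  · intro n hn
    exact ⟨setOf_small hb n hn, setOf_small hb' n hn⟩
  · rintro n (hn | hn) hbig
    · have h1 := units30_mem (hS ((setOf_big n hbig).1 hn))
      refine ⟨h1.2.2, ?_⟩
      have := h1.2.1
      omega
    · have h1 := units30_mem (hS' ((setOf_big n hbig).1 hn))
      refine ⟨h1.2.2, ?_⟩
      have := h1.2.1
      omega
  · intro n hn heven
    obtain ⟨k, rfl⟩ : ∃ k, n = 2 * k := ⟨n / 2, by omega⟩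
    have h1 := congrFun hEq ⟨k, by omega⟩
    have h2 : gcount (setOf S) (2 * k) ≡ gcount (setOf S') (2 * k) [MOD 2] :=
      (ZMod.natCast_eq_natCast_iff _ _ _).1 h1
    have h3 : (2 * k ∈ setOf S ↔ 2 * k ∈ setOf S') := by
      by_cases hbig : 205 < 2 * k
      · rw [setOf_big _ hbig, setOf_big _ hbig]
        have : ∀ J', 2 * k ∉ units30 J' := by
          intro J' h4
          have h5 := (units30_mem h4).2.2
          have h6 : 2 ∣ Nat.gcd (2 * k) 30 := Nat.dvd_gcd (by omega) (by norm_num)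
          rw [h5] at h6
          omega
        constructor
        · intro h4; exact absurd (hS h4) (this J)
        · intro h4; exact absurd (hS' h4) (this J)
      · rw [setOf_small hb _ (by omega), setOf_small hb' _ (by omega)]
    rw [sol_eq_two_g, sol_eq_two_g]
    have h4 : (if 2 * k ∈ setOf S then 1 else 0) = (if 2 * k ∈ setOf S' then 1 else 0 : ℕ) := by
      by_cases h5 : 2 * k ∈ setOf S
      · rw [if_pos h5, if_pos (h3.1 h5)]
      · rw [if_neg h5, if_neg (fun h6 => h5 (h3.2 h6))]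
    rw [h4]
    exact (h2.mul_left' 2).add_right _

end Pool.Agent.H159.GB
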